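import Mathlib

/-!
# Elementary classes of structures with a given age: basic definitions

Project EA (MP_9a84bf_lc).  Everything in the combinatorial core is about a finite relational
signature `σ : Sig` and explicit structures `A : RS σ N`.
-/

namespace Pool.Agent.Helper89.EA

/-- A finite relational signature, with a bound `r ≥ 2` on the arities. -/
structure Sig where
  /-- the relation symbols -/
  Sy : Type
  /-- finitely many symbols -/
  fin : Finite Sy
  /-- the arities -/
  ar : Sy → ℕ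
  /-- a bound on the arities -/
  r : ℕ
  /-- it is a bound -/
  har : ∀ s, ar s ≤ r
  /-- the bound is at least `2` -/
  hr : 2 ≤ r

instance (σ : Sig) : Finite σ.Sy := σ.fin

/-- A `σ`-structure on the type `N`. -/
abbrev RS (σ : Sig) (N : Type) : Type := ∀ s : σ.Sy, (Fin (σ.ar s) → N) → Prop

/-- The structure pulled back along a map. -/
def RS.comap {σ : Sig} {M N : Type} (A : RS σ N) (f : M → N) : RS σ M :=
  fun s x => A s (f ∘ x)

variable {σ : Sig}

/-- Two tuples (indexed by `ι`) have the same quantifier free type. -/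
def ST {M N : Type} (A : RS σ M) (B : RS σ N) {ι : Type} (v : ι → M) (w : ι → N) : Prop :=
  (∀ i j, v i = v j ↔ w i = w j) ∧
    ∀ (s : σ.Sy) (x : Fin (σ.ar s) → ι), A s (v ∘ x) ↔ B s (w ∘ x)

/-- `f` is an embedding. -/
def Emb {M N : Type} (A : RS σ M) (B : RS σ N) (f : M → N) : Prop := ST A B id f

/-- Every finite tuple of `A` has the same type as a tuple of `M0`
(i.e. the age of `A` is contained in the age of `M0`). -/
def InC {M N : Type} (M0 : RS σ M) (A : RS σ N) : Prop :=
  ∀ (n : ℕ) (v : Fin n → N), ∃ w : Fin n → M, ST A M0 v w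

/-- `A` is existentially closed in the class of all structures in `InC M0`. -/
def EC {M N : Type} (M0 : RS σ M) (A : RS σ N) : Prop :=
  InC M0 A ∧ ∀ (N' : Type) (A' : RS σ N'), InC M0 A' → ∀ f : N → N', Emb A A' f →
    ∀ (n m : ℕ) (a : Fin n → N) (b : Fin m → N'), ∃ b' : Fin m → N,
      ST A' A (Sum.elim (f ∘ a) b) (Sum.elim a b')

/-- Atoms: a relation symbol or equality. -/
inductive At (σ : Sig) : Type
  | rel (s : σ.Sy) : At σ
  | eq : At σ

/-- The arity of an atom. -/
def At.ar : At σ → ℕ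
  | .rel s => σ.ar s
  | .eq => 2

/-- Evaluation of an atom. -/
def At.ev {N : Type} (A : RS σ N) : ∀ a : At σ, (Fin a.ar → N) → Prop
  | .rel s, v => A s v
  | .eq, v => v (0 : Fin 2) = v (1 : Fin 2)

/-- The order property for a relation symbol, a partition of its arguments into `l` variables
`x`, `k` variables `y` (with possible repetitions) and parameters. -/
def OP {M : Type} (M0 : RS σ M) (k l : ℕ) : Prop :=
  ∃ (s : σ.Sy) (p : ℕ) (α : Fin (σ.ar s) → (Fin l ⊕ Fin k) ⊕ Fin p), ∀ n : ℕ,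
    ∃ (x : Fin n → Fin l → M) (y : Fin n → Fin k → M) (c : Fin p → M),
      ∀ i j, i ≠ j → (M0 s (Sum.elim (Sum.elim (x i) (y j)) c ∘ α) ↔ i < j)

/-- No atomic formula has the order property. -/
def Stable {M : Type} (M0 : RS σ M) : Prop := ∀ k l, ¬ OP M0 k l

/-- Predicates on finite tuples that are first order definable, uniformly in the structure. -/
inductive FOc (σ : Sig) : ∀ {ι : Type}, (∀ N : Type, RS σ N → (ι → N) → Prop) → Prop
  | pat {ι : Type} [Finite ι] (P : ∀ N : Type, RS σ N → (ι → N) → Prop)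
      (hP : ∀ (N N' : Type) (A : RS σ N) (A' : RS σ N') (v : ι → N) (w : ι → N'),
        ST A A' v w → (P N A v ↔ P N' A' w)) : FOc σ P
  | not {ι : Type} (P : ∀ N : Type, RS σ N → (ι → N) → Prop) (h : FOc σ P) :
      FOc σ (fun N A v => ¬ P N A v)
  | and {ι : Type} (P Q : ∀ N : Type, RS σ N → (ι → N) → Prop) (hP : FOc σ P) (hQ : FOc σ Q) :
      FOc σ (fun N A v => P N A v ∧ Q N A v)
  | ex {ι κ : Type} [Finite κ] (P : ∀ N : Type, RS σ N → (ι ⊕ κ → N) → Prop) (h : FOc σ P) :
      FOc σ (fun N A v => ∃ w : κ → N, P N A (Sum.elim v w))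

/-- The combinatorial form of there are continuum many elementary classes. -/
def ManyS {M : Type} (M0 : RS σ M) : Prop :=
  ∃ Ψ : ℕ → ∀ N : Type, RS σ N → (Empty → N) → Prop, (∀ i, FOc σ (Ψ i)) ∧
    ∀ (n : ℕ) (S : Set ℕ) (k : ℕ) (a : Fin k → M), ∃ (N : Type) (A : RS σ N),
      InC M0 A ∧ (∃ b : Fin k → N, ST A M0 b a) ∧
        ∀ i < n, (Ψ i N A Empty.elim ↔ i ∈ S)

/-- Cellular structures. -/
def Cell {N : Type} (A : RS σ N) : Prop :=
  ∃ (K : Set N) (n : ℕ) (k : Fin n → ℕ) (c : ∀ i : Fin n, ℕ → Fin (k i) → N),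
    K.Finite ∧ (∀ x, x ∈ K ∨ ∃ i j l, c i j l = x) ∧ (∀ i j l, c i j l ∉ K) ∧
    (∀ i j l i' j' l', c i j l = c i' j' l' →
      (⟨i, j, l⟩ : Σ i : Fin n, ℕ × Fin (k i)) = ⟨i', j', l'⟩) ∧
    ∀ (i : Fin n) (τ : Equiv.Perm ℕ), ∃ g : N ≃ N,
      (∀ s x, A s (g ∘ x) ↔ A s x) ∧ (∀ j l, g (c i j l) = c i (τ j) l) ∧
      ∀ x, (∀ j l, c i j l ≠ x) → g x = x

/-- Every countable structure whose age is contained in that of `M0` is cellular. -/
def CellAge {M : Type} (M0 : RS σ M) : Prop :=
  ∀ (N : Type) [Countable N] (A : RS σ N), InC M0 A → Cell A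

/-- The ultraproduct of a family of types. -/
def UP {I : Type} (u : Ultrafilter I) (N : I → Type) : Type :=
  Quotient ((u : Filter I).productSetoid N)

/-- The class of a choice function. -/
def UP.mk {I : Type} (u : Ultrafilter I) {N : I → Type} (x : ∀ i, N i) : UP u N :=
  Quotient.mk _ x

/-- The ultraproduct structure. -/
def UP.rs {I : Type} (u : Ultrafilter I) {N : I → Type} (A : ∀ i, RS σ (N i)) : RS σ (UP u N) :=
  fun s x => ∀ᶠ i in (u : Filter I), A i s (fun j => (Quotient.out (x j)) i)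

end Pool.Agent.Helper89.EA
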