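import Pool.Agent.Helper89.EA.Defs

/-!
# Elementary classes of structures with a given age: the definitions in terms of Mathlib
-/

namespace Pool.Agent.Helper89.EA

open FirstOrder FirstOrder.Language CategoryTheory

/-- There is a family, indexed by the sets of natural numbers, of countable structures with the
same age as `M₀` which are pairwise not elementarily equivalent. -/
def Many (L : FirstOrder.Language.{0, 0}) (M₀ : Type) [L.Structure M₀] : Prop :=
  ∃ F : Set ℕ → Bundled.{0} L.Structure, (∀ S, Countable (F S)) ∧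
    (∀ S, L.age (F S) = L.age M₀) ∧ ∀ S T, S ≠ T → ¬ L.ElementarilyEquivalent (F S) (F T)

/-- Cellular structures: the universe is the disjoint union of a finite set `K` and of tuples
`c i j : Fin (k i) → N` (`i : Fin n`, `j : ℕ`), and for each `i` every permutation `τ` of `ℕ`
is induced by an automorphism taking `c i j` to `c i (τ j)` and fixing all points outside the
tuples `c i j`, `j : ℕ`. -/
def Cellular (L : FirstOrder.Language.{0, 0}) (N : Type) [L.Structure N] : Prop :=
  ∃ (K : Set N) (n : ℕ) (k : Fin n → ℕ) (c : ∀ i : Fin n, ℕ → Fin (k i) → N),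
    K.Finite ∧ (∀ x, x ∈ K ∨ ∃ i j l, c i j l = x) ∧ (∀ i j l, c i j l ∉ K) ∧
    (∀ i j l i' j' l', c i j l = c i' j' l' →
      (⟨i, j, l⟩ : Σ i : Fin n, ℕ × Fin (k i)) = ⟨i', j', l'⟩) ∧
    ∀ (i : Fin n) (τ : Equiv.Perm ℕ), ∃ g : N ≃[L] N,
      (∀ j l, g (c i j l) = c i (τ j) l) ∧ ∀ x, (∀ j l, c i j l ≠ x) → g x = x

/-- Every countable structure whose age is contained in the age of `M₀` is cellular. -/
def CellularAge (L : FirstOrder.Language.{0, 0}) (M₀ : Type) [L.Structure M₀] : Prop :=
  ∀ (N : Type) [L.Structure N] [Countable N], L.age N ⊆ L.age M₀ → Cellular L N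

variable (L : FirstOrder.Language.{0, 0}) [L.IsRelational] [Finite (Σ n, L.Relations n)]

theorem exists_arity_bound : ∃ r : ℕ, (∀ s : (Σ n, L.Relations n), s.1 ≤ r) ∧ 2 ≤ r := by
  obtain ⟨b, hb⟩ := (Set.finite_range (fun s : (Σ n, L.Relations n) => s.1)).bddAbove
  exact ⟨max b 2, fun s => le_max_of_le_left (hb ⟨s, rfl⟩), le_max_right _ _⟩

/-- the signature of a finite relational language -/
noncomputable def sigOf : Sig where
  Sy := Σ n, L.Relations n
  fin := inferInstance
  ar := fun s => s.1
  r := Classical.choose (exists_arity_bound L)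
  har := (Classical.choose_spec (exists_arity_bound L)).1
  hr := (Classical.choose_spec (exists_arity_bound L)).2

/-- the `sigOf L`-structure of an `L`-structure -/
def rsOf (N : Type) [L.Structure N] : RS (sigOf L) N :=
  fun s x => Structure.RelMap s.2 x

/-- the `L`-structure of a `sigOf L`-structure -/
@[reducible]
def toStr {N : Type} (A : RS (sigOf L) N) : L.Structure N where
  funMap := fun {_} f => isEmptyElim f
  RelMap := fun {n} R x => A ⟨n, R⟩ x

end Pool.Agent.Helper89.EA
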