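import Pool.Agent.Helper89.EA.Defs

/-!
# Project EA, part U (an atomic formula has the order property): definitions
-/

namespace Pool.Agent.Helper89.EA

variable {σ : Sig} {M N : Type}

/-- the order property for one atomic formula -/
def OPat (M0 : RS σ M) (k l : ℕ) (s : σ.Sy) (p : ℕ)
    (α : Fin (σ.ar s) → (Fin l ⊕ Fin k) ⊕ Fin p) : Prop :=
  ∀ n : ℕ, ∃ (x : Fin n → Fin l → M) (y : Fin n → Fin k → M) (c : Fin p → M),
    ∀ i j, i ≠ j → (M0 s (Sum.elim (Sum.elim (x i) (y j)) c ∘ α) ↔ i < j)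

/-- `k` is minimal with the order property, and `l` is minimal for this `k` -/
def IsMinOP (M0 : RS σ M) (k l : ℕ) : Prop :=
  OP M0 k l ∧ (∀ k' l', OP M0 k' l' → k ≤ k') ∧ ∀ l', OP M0 k l' → l ≤ l'

/-- coordinates: `Sum.inl a` is a coordinate of the tuples `x`, `Sum.inr b` one of the `y` -/
abbrev Co (l k : ℕ) : Type := Fin l ⊕ Fin k

/-- move the index -/
def pl {P I J : Type} {l k : ℕ} (g : I → J) : P ⊕ I × Co l k → P ⊕ J × Co l k :=
  Sum.map id (Prod.map g id)

/-- A homogeneous ladder `x i = (el (inr (i, inl a)))_a`, `y j = (el (inr (j, inr b)))_b` over the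
finite set `P` (the parameters `c` are in `P`). -/
structure Lad (M0 : RS σ M) (k l : ℕ) (s : σ.Sy) (p : ℕ)
    (α : Fin (σ.ar s) → (Fin l ⊕ Fin k) ⊕ Fin p) (P N : Type) where
  /-- the structure -/
  A : RS σ N
  /-- it is in the class -/
  inC : InC M0 A
  /-- the parameters -/
  c : Fin p → P
  /-- the elements -/
  el : P ⊕ ℕ × Co l k → N
  /-- homogeneity -/
  hom : ∀ (n : ℕ) (v : Fin n → P ⊕ ℕ × Co l k) (g : ℕ → ℕ), StrictMono g →
    ST A A (el ∘ v) (el ∘ pl g ∘ v)
  /-- the ladder -/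
  rel : ∀ i j : ℕ, i ≠ j → (A s (Sum.elim (Sum.elim (fun a => el (.inr (i, .inl a)))
    (fun b => el (.inr (j, .inr b)))) (fun e => el (.inl (c e))) ∘ α) ↔ i < j)
  /-- the points of `P` are different -/
  injP : ∀ e e', el (.inl e) = el (.inl e') → e = e'
  /-- the points of the ladder are not in `P` -/
  notP : ∀ e i u, el (.inr (i, u)) ≠ el (.inl e)
  /-- points at different places are different -/
  inj1 : ∀ i j u u', i ≠ j → el (.inr (i, u)) ≠ el (.inr (j, u'))
  /-- different coordinates of `x i` are different -/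
  injX : ∀ i a a', el (.inr (i, .inl a)) = el (.inr (i, .inl a')) → a = a'
  /-- different coordinates of `y j` are different -/
  injY : ∀ i b b', el (.inr (i, .inr b)) = el (.inr (i, .inr b')) → b = b'

/-- The carrier of the structure along a coloured linear order `I`; the indices `q` with `Y q`
carry a tuple `y`, the others carry a tuple `x`. -/
def Car (P I : Type) (l k : ℕ) (Y : I → Prop) : Type :=
  {t : P ⊕ I × Co l k // ∀ q u, t = .inr (q, u) → (u.isRight = true ↔ Y q)}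

section Car

variable {P I : Type} {l k : ℕ} {Y : I → Prop}

/-- the index of a point -/
def Car.ix (t : Car P I l k Y) : Option I :=
  match t.1 with
  | .inl _ => none
  | .inr (q, _) => some q

/-- the point of `P` or the coordinate of a point -/
def Car.cd (t : Car P I l k Y) : P ⊕ Co l k :=
  match t.1 with
  | .inl e => .inl e
  | .inr (_, u) => .inr u

/-- the point of `P` -/
def Car.ofP (e : P) : Car P I l k Y := ⟨.inl e, by intro q u h; simp at h⟩

/-- the `a`-th coordinate of `x` at `q` -/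
def Car.ofX (q : I) (hq : ¬ Y q) (a : Fin l) : Car P I l k Y :=
  ⟨.inr (q, .inl a), by
    intro q' u h
    simp only [Sum.inr.injEq, Prod.mk.injEq] at h
    obtain ⟨rfl, rfl⟩ := h
    simpa using hq⟩

/-- the `b`-th coordinate of `y` at `q` -/
def Car.ofY (q : I) (hq : Y q) (b : Fin k) : Car P I l k Y :=
  ⟨.inr (q, .inr b), by
    intro q' u h
    simp only [Sum.inr.injEq, Prod.mk.injEq] at h
    obtain ⟨rfl, rfl⟩ := h
    simpa using hq⟩

open Classical in
/-- move a point to the index `q` of the same colour (points of `P` and points of the other colour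
are not moved) -/
noncomputable def Car.mv (q : I) (t : Car P I l k Y) : Car P I l k Y :=
  if h : ∀ q' u', (t.1 = .inr (q', u')) → (Y q' ↔ Y q) then
    ⟨pl (fun _ => q) t.1, by
      intro q1 u1 h1
      obtain ⟨t, ht⟩ := t
      rcases t with e | ⟨q', u'⟩
      · simp [pl] at h1
      · have h2 := h q' u' rfl
        have h3 := ht q' u' rfl
        simp only [pl, Sum.map_inr, Prod.map, Sum.inr.injEq, Prod.mk.injEq] at h1
        obtain ⟨rfl, rfl⟩ := h1
        simp only [id] at *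
        rw [h3, h2]⟩
  else t

/-- the strict order of the indices -/
def Car.Lt [LinearOrder I] (t t' : Car P I l k Y) : Prop :=
  ∃ q q', t.ix = some q ∧ t'.ix = some q' ∧ q < q'

/-- same order type over `P` -/
def OTy [LinearOrder I] {ι : Type} (v v' : ι → Car P I l k Y) : Prop :=
  (∀ i, (v i).cd = (v' i).cd) ∧ ∀ i j, (v i).Lt (v j) ↔ (v' i).Lt (v' j)

/-- a tuple consisting of different points at the index `q` -/
def Pure {n : ℕ} (z : Fin n → Car P I l k Y) (q : I) : Prop :=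
  (∀ i, (z i).ix = some q) ∧ Function.Injective z

/-- the indices of a tuple -/
def Idx {ι : Type} (z : ι → Car P I l k Y) : Set I := {q | ∃ i, (z i).ix = some q}

/-- the structure on the carrier -/
def star {M0 : RS σ M} {s : σ.Sy} {p : ℕ} {α : Fin (σ.ar s) → (Fin l ⊕ Fin k) ⊕ Fin p}
    (Λ : Lad M0 k l s p α P N) [LinearOrder I] (Y : I → Prop) : RS σ (Car P I l k Y) :=
  fun s' v => ∃ g : I → ℕ, StrictMonoOn g (Idx v) ∧ Λ.A s' (fun i => Λ.el (pl g (v i).1))

end Car

/-! ### The coding order -/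

/-- the class of a rational number: the exponent of `2` in its denominator -/
def kd (q : ℚ) : ℕ := padicValNat 2 q.den

open Classical in
/-- the number of indices over a rational number -/
noncomputable def sz (S : Set ℕ) (q : ℚ) : ℕ := if kd q ∈ S then kd q else 1

/-- The coding order: `q : ℚ` is replaced by a run of `kd q` indices carrying tuples `y` if
`kd q ∈ S`, and by one index carrying a tuple `x` otherwise. -/
def Ix (S : Set ℕ) : Type := {p : ℚ ×ₗ ℕ // (ofLex p).2 < sz S (ofLex p).1}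

instance (S : Set ℕ) : LinearOrder (Ix S) := inferInstanceAs (LinearOrder {p : ℚ ×ₗ ℕ // _})

/-- the rational number of an index -/
def Ix.pt {S : Set ℕ} (i : Ix S) : ℚ := (ofLex i.1).1

/-- the indices carrying tuples `y` -/
def Ix.Y {S : Set ℕ} (i : Ix S) : Prop := kd i.pt ∈ S

/-! ### The formulas -/

section Formulas

variable {l k p : ℕ} {s : σ.Sy}

/-- the atomic formula `R(w; z; c)` -/
def Rl (α : Fin (σ.ar s) → (Fin l ⊕ Fin k) ⊕ Fin p) (A : RS σ N) (w : Fin l → N) (z : Fin k → N)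
    (c : Fin p → N) : Prop :=
  A s (Sum.elim (Sum.elim w z) c ∘ α)

/-- disjoint tuples -/
def Dj {ι κ : Type} (v : ι → N) (w : κ → N) : Prop := ∀ i j, v i ≠ w j

/-- `z` and `z'` are twins over `c` -/
def Tw (α : Fin (σ.ar s) → (Fin l ⊕ Fin k) ⊕ Fin p) (A : RS σ N) (c : Fin p → N)
    (z z' : Fin k → N) : Prop :=
  ∀ w : Fin l → N, Dj w z → Dj w z' → Dj w c → (Rl α A w z c ↔ Rl α A w z' c)

/-- `z` is between `w0` and `w1` -/
def ZZ (α : Fin (σ.ar s) → (Fin l ⊕ Fin k) ⊕ Fin p) (A : RS σ N) (w0 w1 : Fin l → N)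
    (c : Fin p → N) (z : Fin k → N) : Prop :=
  Dj z w0 ∧ Dj z w1 ∧ Dj z c ∧ Rl α A w0 z c ∧ ¬ Rl α A w1 z c

/-- `z` is in a path of `m` consecutive twins -/
def RunP (α : Fin (σ.ar s) → (Fin l ⊕ Fin k) ⊕ Fin p) (A : RS σ N) (w0 w1 : Fin l → N)
    (c : Fin p → N) (m : ℕ) (z : Fin k → N) : Prop :=
  ∃ Z : Fin m → Fin k → N, (∀ i, ZZ α A w0 w1 c (Z i)) ∧ (∀ i j, i ≠ j → Dj (Z i) (Z j)) ∧
    (∀ i j : Fin m, i.val + 1 = j.val → Tw α A c (Z i) (Z j)) ∧ ∃ i, Z i = z

/-- `z` is in a run of length exactly `m` -/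
def HH (α : Fin (σ.ar s) → (Fin l ⊕ Fin k) ⊕ Fin p) (A : RS σ N) (w0 w1 : Fin l → N)
    (c : Fin p → N) (m : ℕ) (z : Fin k → N) : Prop :=
  ZZ α A w0 w1 c z ∧ RunP α A w0 w1 c m z ∧ ¬ RunP α A w0 w1 c (m + 1) z

/-- the tuples `w` which do not separate permutations of tuples of `HH` -/
def WW (α : Fin (σ.ar s) → (Fin l ⊕ Fin k) ⊕ Fin p) (A : RS σ N) (w0 w1 : Fin l → N)
    (c : Fin p → N) (m : ℕ) (w : Fin l → N) : Prop :=
  Dj w c ∧ ∀ (z : Fin k → N) (τ : Equiv.Perm (Fin k)), HH α A w0 w1 c m z →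
    HH α A w0 w1 c m (z ∘ τ) → Dj w z → (Rl α A w z c ↔ Rl α A w (z ∘ τ) c)

/-- the trace of `w` -/
def Tr (α : Fin (σ.ar s) → (Fin l ⊕ Fin k) ⊕ Fin p) (A : RS σ N) (w0 w1 : Fin l → N)
    (c : Fin p → N) (m : ℕ) (w : Fin l → N) (z : Fin k → N) : Prop :=
  HH α A w0 w1 c m z ∧ Dj w z ∧ Rl α A w z c

/-- the coding sentence -/
def Psi (α : Fin (σ.ar s) → (Fin l ⊕ Fin k) ⊕ Fin p) (m : ℕ) (N : Type) (A : RS σ N) : Prop :=
  ∃ (w0 w1 : Fin l → N) (c : Fin p → N),
    (∃ w, WW α A w0 w1 c m w ∧ ∃ z, Tr α A w0 w1 c m w z) ∧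
    ∀ w, WW α A w0 w1 c m w → (∃ z, Tr α A w0 w1 c m w z) →
      ∃ w', WW α A w0 w1 c m w' ∧ (∃ z, Tr α A w0 w1 c m w' z) ∧
        (∀ z, Tr α A w0 w1 c m w' z → Tr α A w0 w1 c m w z) ∧
        ∃ z, Tr α A w0 w1 c m w z ∧ ¬ Tr α A w0 w1 c m w' z

end Formulas

end Pool.Agent.Helper89.EA
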