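import Pool.Agent.Helper89.EA.Defs

/-!
# Project EA, part S (no atomic formula has the order property): definitions
-/

namespace Pool.Agent.Helper89.EA

variable {σ : Sig} {M N N' N'' : Type}

/-- the possible quantifier free types of tuples indexed by `ι` -/
def Typ (σ : Sig) (ι : Type) : Type :=
  (ι → ι → Prop) × (∀ s : σ.Sy, (Fin (σ.ar s) → ι) → Prop)

/-- the quantifier free type of a tuple -/
def typ (A : RS σ N) {ι : Type} (v : ι → N) : Typ σ ι :=
  (fun i j => v i = v j, fun s x => A s (v ∘ x))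

/-- An extension of the structure `A` in the class. -/
structure Ext (M0 : RS σ M) (A : RS σ N) (N' : Type) where
  /-- the structure -/
  B : RS σ N'
  /-- it is in the class -/
  inC : InC M0 B
  /-- the embedding -/
  i : N → N'
  /-- it is an embedding -/
  emb : Emb A B i

variable {M0 : RS σ M} {A : RS σ N}

/-- The type of `u` over `N ∪ y` is finitely satisfiable in `N`. -/
def FS (X : Ext M0 A N') {U Y : Type} (u : U → N') (y : Y → N') : Prop :=
  ∀ (n : ℕ) (c : Fin n → N), ∃ u0 : U → N,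
    ST X.B X.B (Sum.elim (Sum.elim u y) (X.i ∘ c)) (Sum.elim (Sum.elim (X.i ∘ u0) y) (X.i ∘ c))

/-- `u` and `u'` have the same type over `N`. -/
def STo (X : Ext M0 A N') (X' : Ext M0 A N'') {U : Type} (u : U → N') (u' : U → N'') : Prop :=
  ∀ (n : ℕ) (c : Fin n → N), ST X.B X'.B (Sum.elim u (X.i ∘ c)) (Sum.elim u' (X'.i ∘ c))

/-- The type of `u` over `N` does not split over `f`. -/
def NSb (X : Ext M0 A N') {p : ℕ} (f : Fin p → N) {U : Type} (u : U → N') : Prop :=
  ∀ (n : ℕ) (c c' : Fin n → N), ST A A (Sum.elim f c) (Sum.elim f c') →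
    ST X.B X.B (Sum.elim u (X.i ∘ Sum.elim f c)) (Sum.elim u (X.i ∘ Sum.elim f c'))

/-- The family `g` has only finitely many types of `r`-tuples over `N`: they are all realized by
`r`-tuples of a finite subfamily. -/
def FTy (X : Ext M0 A N') {D : Type} (g : D → N') : Prop :=
  ∃ (m : ℕ) (b : Fin m → D), ∀ d : Fin σ.r → D, ∃ d' : Fin σ.r → Fin m,
    STo X X (g ∘ d) (g ∘ b ∘ d')

/-- A finite set of indices is connected (not the union of two independent parts). -/
def ConnI (X : Ext M0 A N') {D : Type} (g : D → N') (B : Finset D) : Prop :=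
  B.Nonempty ∧ ∀ P Q : Finset D, P.Nonempty → Q.Nonempty → Disjoint P Q →
    (∀ d, d ∈ B ↔ d ∈ P ∨ d ∈ Q) → ¬ FS X (fun d : P => g d) (fun d : Q => g d)

/-- The definite form of connectedness, with the base `f`. -/
def WConn (X : Ext M0 A N') {D : Type} (g : D → N') {p : ℕ} (f : Fin p → N) (B : Finset D) :
    Prop :=
  B.Nonempty ∧ ∀ P Q : Finset D, P.Nonempty → Q.Nonempty → Disjoint P Q →
    (∀ d, d ∈ B ↔ d ∈ P ∨ d ∈ Q) → ∃ e : Fin σ.r → D, (∀ i, e i ∈ Q) ∧
      ∀ c : Fin σ.r → N,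
        ¬ ST X.B X.B (Sum.elim (fun d : P => g d) (Sum.elim (X.i ∘ f) (X.i ∘ c)))
          (Sum.elim (fun d : P => g d) (Sum.elim (X.i ∘ f) (g ∘ e)))

/-- Every finite tuple has, over `f'`, the type of a tuple of `N` over `f`. -/
def Leg (A : RS σ N) {p : ℕ} (f : Fin p → N) (C : RS σ N') (f' : Fin p → N') : Prop :=
  ∀ (n : ℕ) (y : Fin n → N'), ∃ m : Fin n → N, ST C A (Sum.elim f' y) (Sum.elim f m)

/-- The same for tuples of length `σ.r`. -/
def LegR (A : RS σ N) {p : ℕ} (f : Fin p → N) (C : RS σ N') (f' : Fin p → N') : Prop :=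
  ∀ y : Fin σ.r → N', ∃ m : Fin σ.r → N, ST C A (Sum.elim f' y) (Sum.elim f m)

/-- The schemes at `f'` and `f''` are the same. -/
def SchEq (X : Ext M0 A N') {D : Type} (g : D → N') {p : ℕ} (f : Fin p → N) {K : Type}
    (C : RS σ K) (f' f'' : Fin p → K) : Prop :=
  ∀ (y : Fin σ.r → K) (m m' : Fin σ.r → N), ST C A (Sum.elim f' y) (Sum.elim f m) →
    ST C A (Sum.elim f'' y) (Sum.elim f m') →
    ST X.B X.B (Sum.elim g (X.i ∘ m)) (Sum.elim g (X.i ∘ m'))

/-- Finite ambiguity: in no existentially closed extension there are infinitely many different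
schemes. -/
def FinA (X : Ext M0 A N') {D : Type} (g : D → N') {p : ℕ} (f : Fin p → N) : Prop :=
  ∀ (K : Type) [Countable K] (C : RS σ K), EC M0 C → ∀ κ : N → K, Emb A C κ →
    ¬ ∃ F : ℕ → Fin p → K, (∀ t, Leg A f C (F t)) ∧
      ∀ t t', t ≠ t' → ¬ SchEq X g f C (F t) (F t')

/-- The definite form of finite ambiguity. -/
structure Amb (X : Ext M0 A N') {D : Type} (g : D → N') {p : ℕ} (f : Fin p → N) where
  /-- the length of `z` -/
  q : ℕ
  /-- the pattern -/
  z : Fin q → N
  /-- the number of schemes -/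
  c : ℕ
  /-- representatives of the schemes -/
  fs : Fin c → Fin p → N
  /-- they are good -/
  leg : ∀ j, Leg A f A (fs j)
  /-- they are different -/
  ne : ∀ j j', j ≠ j' → ¬ SchEq X g f A (fs j) (fs j')
  /-- every tuple with the pattern of `(f, z)` has one of the schemes -/
  amb : ∀ (K : Type) (Y : Ext M0 A K) (f' : Fin p → K) (z' : Fin q → K),
    ST Y.B A (Sum.elim f' z') (Sum.elim f z) →
      LegR A f Y.B f' ∧ ∃ j, SchEq X g f Y.B f' (Y.i ∘ fs j)

/-- codes of patterns -/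
def PC (σ : Sig) (G : Type) : Type := Σ n m : ℕ, (Fin n → G) × Typ σ (Fin n ⊕ Fin m)

/-- the set of patterns of the family `g` over `N` -/
def Pat (X : Ext M0 A N') {G : Type} (g : G → N') : Set (PC σ G) :=
  {π | ∃ c : Fin π.2.1 → N, typ X.B (Sum.elim (g ∘ π.2.2.1) (X.i ∘ c)) = π.2.2.2}

/-- the family `g` over the existentially closed `N` has a minimal set of patterns -/
def MinPat (X : Ext M0 A N') {G : Type} (g : G → N') : Prop :=
  ∀ (K : Type) [Countable K] (C : RS σ K), EC M0 C → ∀ (K' : Type) (Y : Ext M0 C K') (h : G → K'),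
    Pat Y h ⊆ Pat X g → Pat X g ⊆ Pat Y h

/-- finitely many types of `r`-tuples outside the existentially closed structure `A` -/
def FinTy (M0 : RS σ M) (A : RS σ N) : Prop :=
  ∃ (q : ℕ) (K : Fin q → Type) (Y : ∀ j, Ext M0 A (K j)) (a : ∀ j, Fin σ.r → K j),
    ∀ (K' : Type) (X : Ext M0 A K') (u : Fin σ.r → K'), (∀ i n, u i ≠ X.i n) →
      ∃ j, STo X (Y j) u (a j)

end Pool.Agent.Helper89.EA
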